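import Pool.Agent.J4H58.SB.Stm

/-!
# Functions invariant under signed permutations (job KB-SYMB)
-/

set_option autoImplicit false

namespace Pool.Agent.J4H28.KB

open MeasureTheory Set Filter Topology ProbabilityTheory
open Pool.Agent.J4H58.SB

variable {n : ℕ}

theorem ordB_closed (R : SL n → SL n → Prop) : IsClosed (ordB R) := by
  have h : ordB R = ⋂ i, ⋂ j, ⋂ (_ : R i j), {x | sv x i ≤ sv x j} := by
    ext x; simp only [ordB, mem_setOf_eq, mem_iInter]
  have hc : ∀ a : SL n, Continuous (fun x : Fin n → ℝ => sv x a) := by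
    intro a
    unfold sv
    by_cases h : a.2 = true
    · simp only [h, if_true]
      fun_prop
    · simp only [h, Bool.false_eq_true, if_false]
      fun_prop
  rw [h]
  exact isClosed_iInter fun i => isClosed_iInter fun j => isClosed_iInter fun _ =>
    isClosed_le (hc i) (hc j)

/-- signed value -/
def sb (e : Bool) (v : ℝ) : ℝ := if e then v else -v

theorem sb_sb (e f : Bool) (v : ℝ) : sb e (sb f v) = sb (e == f) v := by
  cases e <;> cases f <;> simp [sb]

theorem sb_abs (v : ℝ) (hv : v ≠ 0) : v = sb (decide (0 < v)) |v| := by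
  rcases lt_or_gt_of_ne hv with h | h
  · have : ¬ 0 < v := not_lt.2 h.le
    simp [sb, this, abs_of_neg h]
  · simp [sb, h, abs_of_pos h]

theorem sb_le {e f : Bool} {u₁ u₂ v₁ v₂ : ℝ} (hu₁ : 0 < u₁) (hu₂ : 0 < u₂) (hv₁ : 0 < v₁)
    (hv₂ : 0 < v₂) (h : u₁ ≤ u₂ ↔ v₁ ≤ v₂) (h' : u₂ ≤ u₁ ↔ v₂ ≤ v₁) :
    sb e u₁ ≤ sb f u₂ ↔ sb e v₁ ≤ sb f v₂ := by
  cases e <;> cases f <;> simp only [sb, if_true, if_false, Bool.false_eq_true]
  · rw [neg_le_neg_iff, neg_le_neg_iff]
    exact h'
  · constructor <;> intro _ <;> linarith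
  · constructor <;> intro _ <;> linarith
  · exact h

/-- action of signed permutations -/
def act (z : Equiv.Perm (Fin n) × (Fin n → Bool)) (x : Fin n → ℝ) : Fin n → ℝ :=
  fun i => if z.2 i then x (z.1 i) else -x (z.1 i)

theorem act_eq (z : Equiv.Perm (Fin n) × (Fin n → Bool)) (x : Fin n → ℝ) (i : Fin n) :
    act z x i = sb (z.2 i) (x (z.1 i)) := rfl

theorem sv_eq (x : Fin n → ℝ) (a : SL n) : sv x a = sb a.2 (x a.1) := rfl

/-- reference point -/
def y0 (j : Fin n) : ℝ := (j : ℕ) + 1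

open Classical in
/-- the number of compatible signed permutations -/
noncomputable def Lb (R : SL n → SL n → Prop) : ℕ :=
  (Finset.univ.filter fun z : Equiv.Perm (Fin n) × (Fin n → Bool) => act z y0 ∈ ordB R).card

/-- generic points -/
structure Gen (x : Fin n → ℝ) : Prop where
  ne : ∀ i, x i ≠ 0
  inj : Function.Injective fun i => |x i|

/-- change to the sorted point -/
noncomputable def tr (x : Fin n → ℝ) (z : Equiv.Perm (Fin n) × (Fin n → Bool)) :
    Equiv.Perm (Fin n) × (Fin n → Bool) :=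
  ((Tuple.sort fun i => |x i|)⁻¹ * z.1, fun i => z.2 i == decide (0 < x (z.1 i)))

theorem tr_mem (R : SL n → SL n → Prop) {x : Fin n → ℝ} (hx : Gen x)
    (z : Equiv.Perm (Fin n) × (Fin n → Bool)) : act z x ∈ ordB R ↔ act (tr x z) y0 ∈ ordB R := by
  have hs : StrictMono ((fun i => |x i|) ∘ Tuple.sort fun i => |x i|) :=
    (Tuple.monotone_sort _).strictMono_of_injective
      (hx.inj.comp (Tuple.sort fun i => |x i|).injective)
  have key : ∀ k l : Fin n, |x k| ≤ |x l| ↔
      (Tuple.sort fun i => |x i|)⁻¹ k ≤ (Tuple.sort fun i => |x i|)⁻¹ l := by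
    intro k l
    rw [← hs.le_iff_le]
    simp
  have h1 : ∀ a : SL n, sv (act z x) a =
      sb (a.2 == ((tr x z).2 a.1)) |x (z.1 a.1)| := by
    intro a
    rw [sv_eq, act_eq]
    conv_lhs => rw [sb_abs (x (z.1 a.1)) (hx.ne _)]
    rw [sb_sb, sb_sb]
    congr 1
    change ((a.2 == z.2 a.1) == decide (0 < x (z.1 a.1))) =
      (a.2 == (z.2 a.1 == decide (0 < x (z.1 a.1))))
    cases a.2 <;> cases z.2 a.1 <;> cases decide (0 < x (z.1 a.1)) <;> rfl
  have h2 : ∀ a : SL n, sv (act (tr x z) y0) a =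
      sb (a.2 == ((tr x z).2 a.1)) (y0 ((tr x z).1 a.1)) := by
    intro a
    rw [sv_eq, act_eq, sb_sb]
  have hy : ∀ k l : Fin n, y0 k ≤ y0 l ↔ k ≤ l := by
    intro k l
    unfold y0
    rw [add_le_add_iff_right, Nat.cast_le]
    rfl
  have hpos : ∀ k : Fin n, 0 < y0 k := fun k => by unfold y0; positivity
  have h3 : ∀ a b : SL n, sv (act z x) a ≤ sv (act z x) b ↔
      sv (act (tr x z) y0) a ≤ sv (act (tr x z) y0) b := by
    intro a b
    rw [h1, h1, h2, h2]
    refine sb_le (abs_pos.2 (hx.ne _)) (abs_pos.2 (hx.ne _)) (hpos _) (hpos _) ?_ ?_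
    · rw [key, hy]
      rfl
    · rw [key, hy]
      rfl
  constructor
  · intro h a b hab
    exact (h3 a b).1 (h a b hab)
  · intro h a b hab
    exact (h3 a b).2 (h a b hab)

open Classical in
theorem cntB (R : SL n → SL n → Prop) {x : Fin n → ℝ} (hx : Gen x) :
    (Finset.univ.filter fun z : Equiv.Perm (Fin n) × (Fin n → Bool) => act z x ∈ ordB R).card
      = Lb R := by
  unfold Lb
  refine Finset.card_bij (fun z _ => tr x z) ?_ ?_ ?_
  · intro z hz
    rw [Finset.mem_filter] at hz ⊢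
    exact ⟨Finset.mem_univ _, (tr_mem R hx z).1 hz.2⟩
  · intro z _ z' _ h
    unfold tr at h
    rw [Prod.mk.injEq] at h
    have h1 : z.1 = z'.1 := mul_left_cancel h.1
    refine Prod.ext h1 (funext fun i => ?_)
    have h2 : (z.2 i == decide (0 < x (z.1 i))) = (z'.2 i == decide (0 < x (z'.1 i))) :=
      congrFun h.2 i
    rw [h1] at h2
    cases h3 : z.2 i <;> cases h4 : z'.2 i <;> rw [h3, h4] at h2 <;>
      cases h5 : decide (0 < x (z'.1 i)) <;> rw [h5] at h2 <;> simp_all
  · intro z hz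
    have h0 : tr x ((Tuple.sort fun i => |x i|) * z.1,
        fun i => z.2 i == decide (0 < x (((Tuple.sort fun i => |x i|) * z.1) i))) = z := by
      unfold tr
      refine Prod.ext ?_ (funext fun i => ?_)
      · simp only
        rw [inv_mul_cancel_left]
      · simp only
        cases z.2 i <;> cases decide (0 < x (((Tuple.sort fun i => |x i|) * z.1) i)) <;> rfl
    refine ⟨_, ?_, h0⟩
    rw [Finset.mem_filter] at hz ⊢
    refine ⟨Finset.mem_univ _, (tr_mem R hx _).2 ?_⟩
    rw [h0]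
    exact hz.2

theorem perm (ν : Measure ℝ) [IsProbabilityMeasure ν] (p : Equiv.Perm (Fin n)) :
    MeasurePreserving (fun (x : Fin n → ℝ) i => x (p i)) (Measure.pi fun _ => ν)
      (Measure.pi fun _ => ν) := by
  have h := measurePreserving_piCongrLeft (α := fun _ : Fin n => ℝ) (fun _ => ν) p.symm
  have e : (MeasurableEquiv.piCongrLeft (fun _ : Fin n => ℝ) p.symm : (Fin n → ℝ) → (Fin n → ℝ))
      = fun x i => x (p i) := by
    funext x i
    rw [MeasurableEquiv.coe_piCongrLeft]
    have := Equiv.piCongrLeft_apply_apply (P := fun _ : Fin n => ℝ) p.symm x (p i)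
    simpa using this
  rwa [e] at h

theorem act_mp (ν : Measure ℝ) [IsProbabilityMeasure ν] (hν : ν.map (fun x => -x) = ν)
    (z : Equiv.Perm (Fin n) × (Fin n → Bool)) :
    MeasurePreserving (act z) (Measure.pi fun _ => ν) (Measure.pi fun _ => ν) := by
  have h1 : ∀ i : Fin n, MeasurePreserving (sb (z.2 i)) ν ν := by
    intro i
    cases z.2 i
    · exact ⟨measurable_neg, hν⟩
    · exact MeasurePreserving.id ν
  have h2 := measurePreserving_pi (fun _ : Fin n => ν) (fun _ : Fin n => ν) h1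
  exact h2.comp (perm ν z.1)

theorem gen_ae (ν : Measure ℝ) [IsProbabilityMeasure ν] (h0 : ∀ x, ν {x} = 0) :
    ∀ᵐ x : Fin n → ℝ ∂(Measure.pi fun _ => ν), Gen x := by
  -- the pairs with `|a| = |b|` are a null set
  have hcl : IsClosed {p : ℝ × ℝ | |p.1| = |p.2|} :=
    isClosed_eq (by fun_prop) (by fun_prop)
  have hd : (ν.prod ν) {p : ℝ × ℝ | |p.1| = |p.2|} = 0 := by
    rw [Measure.prod_apply hcl.measurableSet]
    have : ∀ x : ℝ, ν (Prod.mk x ⁻¹' {p : ℝ × ℝ | |p.1| = |p.2|}) = 0 := by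
      intro x
      refine measure_mono_null (t := {x} ∪ {-x}) ?_ (measure_union_null (h0 _) (h0 _))
      intro y hy
      rw [mem_preimage, mem_setOf_eq, abs_eq_abs] at hy
      simp only at hy
      rcases hy with hy | hy
      · left
        rw [mem_singleton_iff, hy]
      · right
        rw [mem_singleton_iff, hy, neg_neg]
    rw [lintegral_congr this, lintegral_zero]
  have h : ∀ i j : Fin n, i ≠ j → ∀ᵐ x : Fin n → ℝ ∂(Measure.pi fun _ => ν), |x i| ≠ |x j| := by
    intro i j hij
    have hI : iIndepFun (fun (i : Fin n) (ω : Fin n → ℝ) => ω i) (Measure.pi fun _ => ν) :=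
      iIndepFun_pi (X := fun _ x => x) (fun _ => aemeasurable_id)
    have hij2 := hI.indepFun hij
    rw [indepFun_iff_map_prod_eq_prod_map_map (measurable_pi_apply i).aemeasurable
      (measurable_pi_apply j).aemeasurable] at hij2
    rw [(measurePreserving_eval (fun _ : Fin n => ν) i).map_eq,
      (measurePreserving_eval (fun _ : Fin n => ν) j).map_eq] at hij2
    rw [ae_iff]
    have h3 : {x : Fin n → ℝ | ¬ |x i| ≠ |x j|} = (fun ω : Fin n → ℝ => (ω i, ω j)) ⁻¹'
        {p : ℝ × ℝ | |p.1| = |p.2|} := by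
      ext x; simp
    rw [h3, ← Measure.map_apply ((measurable_pi_apply i).prodMk (measurable_pi_apply j))
      hcl.measurableSet, hij2, hd]
  have hz : ∀ᵐ x : Fin n → ℝ ∂(Measure.pi fun _ => ν), ∀ i, x i ≠ 0 := by
    rw [ae_all_iff]
    intro i
    rw [ae_iff]
    have h3 : {x : Fin n → ℝ | ¬ x i ≠ 0} = (fun ω : Fin n → ℝ => ω i) ⁻¹' {0} := by
      ext x; simp
    rw [h3, ← Measure.map_apply (measurable_pi_apply i) (measurableSet_singleton _),
      (measurePreserving_eval (fun _ : Fin n => ν) i).map_eq, h0]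
  have h2 : ∀ᵐ x : Fin n → ℝ ∂(Measure.pi fun _ => ν), ∀ i j : Fin n, i ≠ j → |x i| ≠ |x j| := by
    rw [ae_all_iff]
    intro i
    rw [ae_all_iff]
    intro j
    by_cases hij : i = j
    · exact Eventually.of_forall fun x h => absurd hij h
    · filter_upwards [h i j hij] with x hx _
      exact hx
  filter_upwards [h2, hz] with x hx hx0
  refine ⟨hx0, fun i j hij => ?_⟩
  by_contra hne
  exact hx i j hne hij

open Classical in
theorem pt (R : SL n → SL n → Prop) (G : (Fin n → ℝ) → ℝ) (hG : SymB G)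
    (x : Fin n → ℝ) (hx : Gen x) :
    ∑ z : Equiv.Perm (Fin n) × (Fin n → Bool), (ordB R).indicator G (act z x) =
      (Lb R : ℝ) * G x := by
  have h1 : ∀ z : Equiv.Perm (Fin n) × (Fin n → Bool), (ordB R).indicator G (act z x) =
      if act z x ∈ ordB R then G x else 0 := by
    intro z
    by_cases h : act z x ∈ ordB R
    · rw [indicator_of_mem h, if_pos h]
      exact hG z.1 z.2 x
    · rw [indicator_of_notMem h, if_neg h]
  rw [Finset.sum_congr rfl (fun p _ => h1 p), ← Finset.sum_filter, Finset.sum_const, cntB R hx,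
    nsmul_eq_mul]

theorem E1 (ν : Measure ℝ) [IsProbabilityMeasure ν] (h0 : ∀ x, ν {x} = 0)
    (hν : ν.map (fun x => -x) = ν)
    (R : SL n → SL n → Prop) (G : (Fin n → ℝ) → ℝ) (hc : Integrable G (Measure.pi fun _ => ν))
    (hG : SymB G) :
    (Fintype.card (Equiv.Perm (Fin n) × (Fin n → Bool)) : ℝ) *
      ∫ x in ordB R, G x ∂(Measure.pi fun _ => ν) =
      (Lb R : ℝ) * ∫ x, G x ∂(Measure.pi fun _ => ν) := by
  have hint : Integrable ((ordB R).indicator G) (Measure.pi fun _ => ν) :=
    hc.indicator (ordB_closed R).measurableSet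
  have h1 : ∀ z : Equiv.Perm (Fin n) × (Fin n → Bool),
      Integrable (fun x : Fin n → ℝ => (ordB R).indicator G (act z x))
        (Measure.pi fun _ => ν) := by
    intro z
    exact ((act_mp ν hν z).integrable_comp hint.1).2 hint
  calc (Fintype.card (Equiv.Perm (Fin n) × (Fin n → Bool)) : ℝ) *
        ∫ x in ordB R, G x ∂(Measure.pi fun _ => ν)
      = ∑ _p : Equiv.Perm (Fin n) × (Fin n → Bool), ∫ x in ordB R, G x ∂(Measure.pi fun _ => ν) := by
        rw [Finset.sum_const, Finset.card_univ, nsmul_eq_mul]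
    _ = ∑ z : Equiv.Perm (Fin n) × (Fin n → Bool), ∫ x : Fin n → ℝ, (ordB R).indicator G (act z x)
          ∂(Measure.pi fun _ => ν) := by
        apply Finset.sum_congr rfl
        intro z _
        rw [← integral_indicator (ordB_closed R).measurableSet]
        conv_lhs => rw [← (act_mp ν hν z).map_eq]
        rw [integral_map (act_mp ν hν z).measurable.aemeasurable
          (by rw [(act_mp ν hν z).map_eq]; exact hint.1)]
    _ = ∫ x : Fin n → ℝ, ∑ z : Equiv.Perm (Fin n) × (Fin n → Bool), (ordB R).indicator G (act z x)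
          ∂(Measure.pi fun _ => ν) := by
        rw [integral_finsetSum _ (fun p _ => h1 p)]
    _ = ∫ x : Fin n → ℝ, (Lb R : ℝ) * G x ∂(Measure.pi fun _ => ν) := by
        apply integral_congr_ae
        filter_upwards [gen_ae ν h0] with x hx
        exact pt R G hG x hx
    _ = (Lb R : ℝ) * ∫ x, G x ∂(Measure.pi fun _ => ν) := by
        rw [integral_const_mul]

theorem t_SYMB : S_SYMB := by
  intro n ν hν h0 hneg R G hc hG
  have e1 := E1 ν h0 hneg R G hc hG
  have e2 := E1 ν h0 hneg R (fun _ => 1) (integrable_const _) (fun _ _ _ => rfl)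
  have e3 : ∫ x : Fin n → ℝ, (1 : ℝ) ∂(Measure.pi fun _ => ν) = 1 := by
    simp
  have e4 : ∫ x in ordB R, (1 : ℝ) ∂(Measure.pi fun _ => ν) =
      ((Measure.pi fun _ => ν) (ordB R)).toReal := by
    simp [Measure.real]
  rw [e3, e4, mul_one] at e2
  rw [← e2] at e1
  have hpos : (Fintype.card (Equiv.Perm (Fin n) × (Fin n → Bool)) : ℝ) ≠ 0 := by
    exact_mod_cast Fintype.card_ne_zero
  apply mul_left_cancel₀ hpos
  rw [e1]
  ring

end Pool.Agent.J4H28.KB
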